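import Pool.Agent.H25.AD.Comp4

/-!
# Lehmer's problem for Galois groups with bounded composition factors

Fix `e`. Consider the finite groups all of whose nonabelian composition factors `S` satisfy `|Aut S| ≤ [S : X] ^ e` for all proper subgroups `X` of `S`:
all solvable groups (for every `e`), and, for suitable `e`, groups with composition factors of Lie type of bounded rank, for example `PSL(2, q)` for all `q`.

* There are constants `c, δ > 0` with the following property. Let `K` be a Galois number field, `N` a normal subgroup of its Galois group in the class above, and `α` a unit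
  of `K`, such that `N` contains an `s` for which neither `s(α)/α` nor `s(α)α` is a root of unity, or such that `N` is the whole group and `α` is not a root of unity.
  Then `log M(α) ≥ c d ^ δ` for the degree `d` of some field `ℚ(α ^ k)`, `k ≥ 1`.
* The Mahler measures of the polynomials in `ℤ[X]` with Galois group in the class, leading coefficient `± 1` and constant coefficient `± 1` form a discrete closed set: finitely many
  in each bounded interval.
* There is a constant `c > 1` such that `M(f) ≥ c` for all `f ∈ ℤ[X]` with Galois group in the class and `M(f) > 1`.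

The proof uses the structure theorem for units of small Mahler measure (`StructureTheorem`), itself based on a quantitative form of the theorem of Amoroso and David
on heights in several dimensions, and an analysis of a chief factor of the Galois group.
-/

set_option autoImplicit false

open Polynomial

namespace Pool.Agent.Results.MP_dc0c68_nt.BoundedFactors

/-- The Mahler measure of an integer polynomial. -/
noncomputable def mahler (f : ℤ[X]) : ℝ := (f.map (Int.castRingHom ℂ)).mahlerMeasure

/-- Every noncommutative composition factor `A ⧸ B` of `Γ` satisfies `|Aut (A ⧸ B)| ≤ [A ⧸ B : X] ^ e` for all its proper subgroups `X`. -/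
def Bounded (e : ℕ) (Γ : Type*) [Group Γ] : Prop :=
  ∀ A : Subgroup Γ, A.IsSubnormal → ∀ B : Subgroup A, ∀ _ : B.Normal, IsSimpleGroup (A ⧸ B) →
    (∃ x y : A ⧸ B, x * y ≠ y * x) → ∀ X : Subgroup (A ⧸ B), X ≠ ⊤ → Nat.card (MulAut (A ⧸ B)) ≤ X.index ^ e

/-- The Galois group of `f` over `ℚ` is in the class. -/
def GalBounded (e : ℕ) (f : ℤ[X]) : Prop := Bounded e (f.map (Int.castRingHom ℚ)).Gal

/-- The subgroup `N` contains an `s` such that neither `s α / α` nor `s α * α` is a root of unity, or `N` is the whole Galois group and `α` is not a root of unity. -/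
def Moves {K : Type} [Field K] [NumberField K] (N : Subgroup (K ≃ₐ[ℚ] K)) (α : K) : Prop :=
  (∃ s ∈ N, (∀ k : ℕ, 0 < k → (s α) ^ k ≠ α ^ k) ∧ (∀ k : ℕ, 0 < k → (s α * α) ^ k ≠ 1)) ∨
    (N = ⊤ ∧ ∀ k : ℕ, 0 < k → α ^ k ≠ 1)

theorem result (e : ℕ) :
    (∃ c δ : ℝ, 0 < c ∧ 0 < δ ∧
      ∀ (K : Type) [Field K] [NumberField K] [IsGalois ℚ K] (N : Subgroup (K ≃ₐ[ℚ] K)) (α : K),
        N.Normal → Bounded e N → α ≠ 0 → IsIntegral ℤ α → IsIntegral ℤ α⁻¹ → Moves N α →
        ∃ k : ℕ, 0 < k ∧ c * (Module.finrank ℚ (IntermediateField.adjoin ℚ {α ^ k}) : ℝ) ^ δ ≤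
          Real.log (mahler (minpoly ℤ α))) ∧
    (∀ B : ℝ, {x : ℝ | x ≤ B ∧
      ∃ f : ℤ[X], GalBounded e f ∧ |f.leadingCoeff| = 1 ∧ |f.coeff 0| = 1 ∧ mahler f = x}.Finite) ∧
    ∃ c : ℝ, 1 < c ∧ ∀ f : ℤ[X], GalBounded e f → 1 < mahler f → c ≤ mahler f := by
  refine ⟨?_, ?_, ?_⟩
  · obtain ⟨c, δ, hc, hδ, H⟩ := H25.comp_quant' e
    refine ⟨c, δ, hc, hδ, ?_⟩
    intro K _ _ _ N α hN hNs h0 h1 h2 hmov
    refine H K N α hN hNs ⟨h1, h2, h0⟩ ?_
    rcases hmov with ⟨s, hs, h3, h4⟩ | ⟨h3, h4⟩
    · exact Or.inl ⟨s, hs, H25.not_tors_div h0 h3, H25.not_tors_of h4⟩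
    · exact Or.inr ⟨h3, H25.not_tors_of h4⟩
  · intro B
    refine (H25.comp_discrete e B).subset ?_
    rintro x ⟨hx, f, h1, h2, h3, h4⟩
    exact ⟨hx, f, ⟨h1, h2, h3⟩, h4⟩
  · exact H25.comp_const e

end Pool.Agent.Results.MP_dc0c68_nt.BoundedFactors
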