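import Mathlib
import Pool.Prelude.Def_F_0dc91acc
import Pool.Agent.H92.LB.CycF

/-!
# Lehmer's problem and the size of a cyclotomic multiple on the unit circle

Let `f ∈ ℤ[X]` be irreducible with `M(f) > 1` and let `F = f ^ e * P`, where `P` is a product of
cyclotomic polynomials. Let `λ(F)` be the mean of `log⁺ |F|` over the unit circle. Then
`log M(f) ≥ c * (e² deg f / (deg F * (1 + λ(F)))) ^ 3` with an absolute constant `c > 0`. In
particular (`P = 1`, `e = 1`) `log M(f) ≥ c / (1 + λ(f)) ^ 3`. There is no condition on the degree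
and on the roots.

The proof compares the roots `α_i ^ p`, `α_j ^ q` for primes `p`, `q` as in the theorem of
Dobrowolski (in the form of Cantor and Straus), but the estimate of a determinant that brings in
the degree is replaced by an estimate of the energy of the roots (reflected and slightly contracted
into the disc). The energy of the roots of `f` is estimated by the energy of the roots of `F` and
the resultants of `P` with `f`, for which `P(X)` divides `P(X²) P(-X) P(-X²)`. Polynomials in
`X ^ p` are reduced to others by the substitution `∏_{ω ^ p = 1} F(ω X) = F'(X ^ p)`.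
-/

set_option autoImplicit false

open Polynomial N60ffa576

namespace Pool.Agent.Results.MP_dc0c68_nt.LengthBound

lemma log_measure (f : ℤ[X]) : Real.log (mahlerMeasureZ f) = H91.LK.lm f := by
  unfold mahlerMeasureZ H91.LK.lm
  rw [← logMahlerMeasure_eq_log_MahlerMeasure, algebraMap_int_eq]

lemma eval_eq (f : ℤ[X]) (z : ℂ) : (f.map (Int.castRingHom ℂ)).eval z = aeval z f := by
  rw [← algebraMap_int_eq, eval_map_algebraMap]

lemma mean_eq (f : ℤ[X]) :
    Real.circleAverage (fun z : ℂ => Real.posLog ‖aeval z f‖) 0 1 = H73.LB.mlp f := by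
  unfold H73.LB.mlp
  simp_rw [eval_eq]

/-- the index `0` in a product of cyclotomic polynomials may be omitted -/
lemma cp_pos (S : Multiset ℕ) : ∃ T : Multiset ℕ, (∀ n ∈ T, 0 < n) ∧
    (S.map fun n => cyclotomic n ℤ).prod = H92.LB.cp T := by
  induction S using Multiset.induction_on with
  | empty => exact ⟨0, by simp, by simp [H92.LB.cp_zero]⟩
  | cons n S ih =>
    obtain ⟨T, hT, hTS⟩ := ih
    rw [Multiset.map_cons, Multiset.prod_cons, hTS]
    rcases Nat.eq_zero_or_pos n with rfl | hn
    · exact ⟨T, hT, by rw [cyclotomic_zero, one_mul]⟩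
    · refine ⟨n ::ₘ T, fun k hk => ?_, (H92.LB.cp_cons n T).symm⟩
      rcases Multiset.mem_cons.1 hk with rfl | h
      · exact hn
      · exact hT k h

theorem result : ∃ c : ℝ, 0 < c ∧ ∀ (f F : ℤ[X]) (e : ℕ) (S : Multiset ℕ), Irreducible f →
    1 < mahlerMeasureZ f → F = f ^ e * (S.map fun n => cyclotomic n ℤ).prod →
    c * (e ^ 2 * f.natDegree /
      (F.natDegree * (1 + Real.circleAverage (fun z : ℂ => Real.posLog ‖aeval z F‖) 0 1))) ^ 3 ≤
        Real.log (mahlerMeasureZ f) ∧
    ∀ B : ℝ, (∀ z : ℂ, ‖z‖ = 1 → ‖aeval z F‖ ≤ B) →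
      c * (e ^ 2 * f.natDegree / (F.natDegree * (1 + Real.log B))) ^ 3 ≤
        Real.log (mahlerMeasureZ f) := by
  obtain ⟨c, hc, h⟩ := H92.LB.cyc_bound
  refine ⟨c, hc, ?_⟩
  rintro f F e S hf hM rfl
  have h0 : 0 < H91.LK.lm f := by
    rw [← log_measure]
    exact Real.log_pos hM
  obtain ⟨T, hT, hTS⟩ := cp_pos S
  rw [hTS, mean_eq, log_measure]
  rcases Nat.eq_zero_or_pos e with rfl | he
  · refine ⟨?_, fun B _ => ?_⟩ <;> simpa using h0.le
  have h1 := h f hf h0 T hT e he
  refine ⟨h1, fun B hB => le_trans ?_ h1⟩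
  have hB' : ∀ z : ℂ, ‖z‖ = 1 →
      ‖((f ^ e * H92.LB.cp T).map (Int.castRingHom ℂ)).eval z‖ ≤ B := by
    intro z hz
    rw [eval_eq]
    exact hB z hz
  have hlF : 0 < H91.LK.lm (f ^ e * H92.LB.cp T) := by
    rw [H91.LK.nd_lm_mul (pow_ne_zero _ hf.ne_zero) (H92.LB.cp_monic T).ne_zero,
      H92.LB.lm_pow hf.ne_zero]
    have h2 := H91.LK.nd_lm_nonneg (H92.LB.cp T)
    have h3 : (0 : ℝ) < e := by exact_mod_cast he
    have h4 := mul_pos h3 h0
    linarith
  have h2 := H73.LB.mlp_le _ (H82.LB.log_sup _ B hlF hB') hB'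
  have h3 := H73.LB.mlp_nonneg (f ^ e * H92.LB.cp T)
  apply mul_le_mul_of_nonneg_left _ hc.le
  unfold H92.LB.ratio
  rcases Nat.eq_zero_or_pos (f ^ e * H92.LB.cp T).natDegree with h4 | h4
  · rw [h4]
    simp
  have h5 : (0 : ℝ) < (f ^ e * H92.LB.cp T).natDegree := by exact_mod_cast h4
  apply pow_le_pow_left₀
  · exact div_nonneg (by positivity) (mul_nonneg h5.le (by linarith))
  · apply div_le_div_of_nonneg_left (by positivity) (by positivity)
    exact mul_le_mul_of_nonneg_left (by linarith) h5.le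

end Pool.Agent.Results.MP_dc0c68_nt.LengthBound
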