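import Pool.Agent.H4.Leh.Final
import Pool.Agent.H25.AD.SolvThm

/-!
# A structure theorem for units of small Mahler measure

Let `α` be a unit, not a root of unity. A suitable number `β` in `ℚ(α)` with the same Mahler measure, equal to a power of `α` up to a root of unity and of
degree `n` over `ℚ`, either satisfies `log M(β) ≥ c n ^ δ`, or is such that `ℚ(β)` has a subfield `L` of degree at least `n / 2` with the following properties.
Up to factors which are polynomial in `log n` and `log M(β)`, the fields `F` between `ℚ` and `L` are small, and if `F` is maximal then the Galois group of the normal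
closure of `L` over `F` is almost simple, of order at least `n ^ A`, and any `r ≤ A` distinct conjugates of `L` over `F` generate a field of almost the
maximal possible degree `n ^ r` (if `r > 2`, unless the rank of the multiplicative group generated by the conjugates of `β` is small).

The proof combines a quantitative form of the theorem of Amoroso and David on heights in several dimensions (proved from scratch, by interpolation determinants)
with elementary group theory: in a primitive permutation group which is not almost simple there are many quadruples of independent conjugates in fields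
of degree about `n ^ 3`. A multiplicative relation between few conjugates, averaged over a point stabiliser all of whose orbits are long, bounds the rank.
-/

set_option autoImplicit false

namespace Pool.Agent.Results.MP_dc0c68_nt.StructureTheorem

open Polynomial

/-- The Mahler measure of an integer polynomial. -/
noncomputable def mahler (f : ℤ[X]) : ℝ := (f.map (Int.castRingHom ℂ)).mahlerMeasure

/-- A group is almost simple if it has a nonabelian simple normal subgroup with trivial centraliser. -/
def AlmostSimple (P : Type*) [Group P] : Prop :=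
  ∃ T : Subgroup P, T.Normal ∧ IsSimpleGroup T ∧ (∃ x ∈ T, ∃ y ∈ T, x * y ≠ y * x) ∧
    Subgroup.centralizer (T : Set P) = ⊥

section

variable {K : Type} [Field K] [NumberField K]

/-- The field `ℚ(S)`. -/
noncomputable def gen (S : Set K) : IntermediateField ℚ K := IntermediateField.adjoin ℚ S

/-- The degree `[M : ℚ]`. -/
noncomputable def deg (M : IntermediateField ℚ K) : ℝ := Module.finrank ℚ M

/-- `β` is a power of `α` up to a root of unity, and two conjugates of `β` whose quotient is a root of unity are equal. -/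
def Reduced (α β : K) : Prop :=
  (∃ k m : ℕ, 0 < k ∧ 0 < m ∧ β ^ m = (α ^ k) ^ m) ∧
    ∀ g : K ≃ₐ[ℚ] K, ∀ m : ℕ, 0 < m → (g β) ^ m = β ^ m → g β = β

/-- The conjugates of `β` generate a multiplicative group of rank at most `Z`: any `s > Z` of them are multiplicatively dependent. -/
def SmallRank (β : K) (Z : ℝ) : Prop :=
  ∀ s : ℕ, Z < s → ∀ g : Fin s → K ≃ₐ[ℚ] K, ∃ m : Fin s → ℤ, m ≠ 0 ∧ ∏ i, g i β ^ m i = 1

/-- `F` is a maximal proper subfield of `L`. -/
def MaximalIn (F L : IntermediateField ℚ K) : Prop :=
  F < L ∧ ∀ M : IntermediateField ℚ K, F ≤ M → M ≤ L → M = F ∨ M = L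

/-- With `n = [ℚ(β) : ℚ]`: for every `γ ∈ L` outside `F` the Galois group of the minimal polynomial of `γ` over `F` is almost simple and has order at
least `n ^ A`, and `Z [ℚ(y₁, …, y_r) : ℚ] ≥ n ^ r` for all `r ≤ A` and all distinct roots `y₁, …, y_r` in `K` of that polynomial, provided that `r ≤ 2`
or `SmallRank β Z` fails. -/
def LargeGroup (β : K) (F L : IntermediateField ℚ K) (Z : ℝ) (A : ℕ) : Prop :=
  ∀ γ ∈ L, γ ∉ F → AlmostSimple (minpoly F γ).Gal ∧ deg (gen {β}) ^ A ≤ Nat.card (minpoly F γ).Gal ∧
    ∀ r ≤ A, ∀ y : Fin r → K, Function.Injective y → (∀ i, y i ∈ (minpoly F γ).rootSet K) →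
      (r ≤ 2 ∨ ¬ SmallRank β Z) → deg (gen {β}) ^ r ≤ Z * deg (gen (Set.range y))

/-- With `n = [ℚ(β) : ℚ]`: `Z < n`, and there is a subfield `L ≠ ℚ` of `ℚ(β)` with `n ≤ 2 [L : ℚ]` such that every subfield of `ℚ(β)` which does not
contain `L` has degree at most `Z` and `LargeGroup β F L Z A` holds for every maximal proper subfield `F` of `L`. -/
def Structured (β : K) (Z : ℝ) (A : ℕ) : Prop :=
  Z < deg (gen {β}) ∧ ∃ L : IntermediateField ℚ K, L ≤ gen {β} ∧ L ≠ ⊥ ∧ deg (gen {β}) ≤ 2 * deg L ∧
    (∀ M : IntermediateField ℚ K, M ≤ gen {β} → ¬ L ≤ M → deg M ≤ Z) ∧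
    ∀ F : IntermediateField ℚ K, MaximalIn F L → LargeGroup β F L Z A

end

/-- The quantity `(C · log (n + 2) · max 1 (log M)) ^ C`. -/
noncomputable def bound (C : ℕ) (n M : ℝ) : ℝ := (C * Real.log (n + 2) * max 1 (Real.log M)) ^ C

/-- For every `A` there are `C` and `c, δ > 0` such that, for every irreducible `f ∈ ℤ[X]` with `f(0) = ± 1`, leading coefficient `± 1` and `M(f) > 1` and every root
`α` of `f` in a Galois number field `K`, there is an algebraic integer `β ∈ ℚ(α)`, reduced, with `M(β) = M(f)`, of degree `n` say, such that `log M(f) ≥ c n ^ δ` or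
`Structured β Z A` holds with `Z = (C log (n + 2) max(1, log M(f))) ^ C`. -/
theorem result (A : ℕ) : ∃ (C : ℕ) (c δ : ℝ), 0 < c ∧ 0 < δ ∧
    ∀ f : ℤ[X], Irreducible f → |f.leadingCoeff| = 1 → |f.coeff 0| = 1 → 1 < mahler f →
      ∀ (K : Type) [Field K] [NumberField K] [IsGalois ℚ K] (α : K), aeval α f = 0 →
      ∃ β ∈ gen {α}, IsIntegral ℤ β ∧ Reduced α β ∧ mahler (minpoly ℤ β) = mahler f ∧
        (c * deg (gen {β}) ^ δ ≤ Real.log (mahler f) ∨
          Structured β (bound C (deg (gen {β})) (mahler f)) A) := by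
  obtain ⟨C, c, δ, hC, hc, hδ, H⟩ := H4.Leh.struct_quant_multi A
  refine ⟨C, c, δ, hc, hδ, ?_⟩
  intro f hf hl hc0 hM K _ _ _ α hα
  have hα0 : α ≠ 0 := by
    rintro rfl
    have h1 : (f.coeff 0 : K) = 0 := by
      simpa [Polynomial.aeval_def, Polynomial.eval₂_at_zero] using hα
    have h2 : f.coeff 0 = 0 := by exact_mod_cast h1
    rw [h2] at hc0
    simp at hc0
  obtain ⟨hU, hMα⟩ := H25.isU_of_poly f hf α hα hα0 hl hc0
  have hMα' : Pool.H95.Leh.mm α = mahler f := hMα.symm
  obtain ⟨β, k, hk, hmem, hβ, hR, ⟨m, hm, hm1⟩, hmm⟩ := Pool.H95.Leh.exists_red α hU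
  have hmf : Pool.H95.Leh.mm β = mahler f := hmm.trans hMα'
  have hβT : ¬ Pool.H95.Leh.Tors β := by
    intro h
    have := Pool.H95.Leh.mm_of_tors β h
    rw [hmf] at this
    linarith
  have hpow : β ^ m = (α ^ k) ^ m := by
    rwa [div_pow, div_eq_one_iff_eq (pow_ne_zero _ (pow_ne_zero _ hα0))] at hm1
  refine ⟨β, hmem, hβ.int, ⟨⟨k, m, hk, hm, hpow⟩, ?_⟩, hmf, ?_⟩
  · intro g m' hm' h
    refine hR g ⟨m', hm', ?_⟩
    rw [div_pow, h, div_self (pow_ne_zero _ hβ.ne)]
  · rcases H K β hβ hR hβT (Module.finrank ℚ (IntermediateField.adjoin ℚ {β})) rfl with h | ⟨h0, L, h1, h2, h3, h4, h5⟩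
    · left
      rw [hmf] at h
      exact h
    · right
      rw [hmf] at h0 h4 h5
      refine ⟨h0, L, h1, h3, ?_, h4, ?_⟩
      · unfold deg gen
        exact_mod_cast h2
      · intro F hF γ hγ hγF
        obtain ⟨g1, g2, g3⟩ := h5 F hF.1 hF.2 γ hγ hγF
        refine ⟨g1, ?_, g3⟩
        unfold deg gen
        exact_mod_cast g2

end Pool.Agent.Results.MP_dc0c68_nt.StructureTheorem
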